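import Pool.Agent.Helper538.SyncI

set_option autoImplicit false

open scoped Cardinal

namespace Pool.Agent.Results.MP_a6df80_lc.Continuum

/-- A monoid of self-maps of `Ω` is synchronizing if any two points are identified by a member. -/
def SyncMonoid {Ω : Type} (M : Submonoid (Function.End Ω)) : Prop :=
  ∀ v w : Ω, ∃ h ∈ M, (h : Ω → Ω) v = (h : Ω → Ω) w

/-- A permutation group `G` on `Ω` is synchronizing: for every map `f` that is not injective, the
monoid generated by `G` and `f` is synchronizing. -/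
def SyncGroup {Ω : Type} (G : Subgroup (Equiv.Perm Ω)) : Prop :=
  ∀ f : Function.End Ω, ¬ Function.Injective (f : Ω → Ω) →
    SyncMonoid (Submonoid.closure
      ({f} ∪ {k : Function.End Ω | ∃ g ∈ G, k = ((g : Equiv.Perm Ω) : Ω → Ω)}))

/-- `G` is 2-homogeneous: transitive on the 2-element subsets of `Ω`. -/
def TwoHomogeneous {Ω : Type} (G : Subgroup (Equiv.Perm Ω)) : Prop :=
  ∀ s t : Set Ω, s.ncard = 2 → t.ncard = 2 → ∃ g ∈ G, (g : Ω → Ω) '' s = t

/-- On some set of cardinality continuum there is a synchronizing permutation group which is not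
2-homogeneous. -/
theorem result :
    ∃ (Ω : Type) (G : Subgroup (Equiv.Perm Ω)), #Ω = 𝔠 ∧ SyncGroup G ∧ ¬ TwoHomogeneous G := by
  obtain ⟨I, _, _, ⟨S⟩⟩ := Pool.Agent.Helper538.Sync.exists_setup
  refine ⟨I →₀ ZMod 2, S.grp, Pool.Agent.Helper538.Sync.mk_vec S.card,
    fun f hf v w => S.sync f hf v w, fun h => S.not_homog ?_⟩
  intro a b c d hab hcd
  exact h {a, b} {c, d} (Set.ncard_pair hab) (Set.ncard_pair hcd)

end Pool.Agent.Results.MP_a6df80_lc.Continuum
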